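import Pool.Agent.H88.MC.Targets

/-! Markov inequality for several functions. -/

set_option autoImplicit false

namespace Pool.Agent.H66.MC

open Finset Pool.Agent.H88.MC

theorem pf_mk : T_MK := by
  intro Ω _ _ m f a b hf hb ha hs
  by_contra hne
  push Not at hne
  have h1 : ∀ ω : Ω, (1 : ℝ) ≤ ∑ i, f i ω / b i := by
    intro ω
    obtain ⟨i, hi⟩ := hne ω
    have h2 : f i ω / b i ≤ ∑ i, f i ω / b i :=
      Finset.single_le_sum (f := fun i => f i ω / b i)
        (fun j _ => div_nonneg (hf j ω) (hb j).le) (Finset.mem_univ i)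
    have h3 : 1 ≤ f i ω / b i := by
      rw [le_div_iff₀ (hb i)]
      linarith
    exact h3.trans h2
  have h4 : (Fintype.card Ω : ℝ) ≤ ∑ ω : Ω, ∑ i, f i ω / b i := by
    calc (Fintype.card Ω : ℝ) = ∑ _ω : Ω, (1 : ℝ) := by simp
      _ ≤ _ := Finset.sum_le_sum fun ω _ => h1 ω
  rw [Finset.sum_comm] at h4
  have h5 : ∑ i, ∑ ω : Ω, f i ω / b i ≤ ∑ i, a i / b i * Fintype.card Ω := by
    refine Finset.sum_le_sum fun i _ => ?_
    rw [← Finset.sum_div, div_mul_eq_mul_div]
    exact div_le_div_of_nonneg_right (ha i) (hb i).le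
  rw [← Finset.sum_mul] at h5
  have h6 : (0 : ℝ) < Fintype.card Ω := by
    exact_mod_cast Fintype.card_pos
  nlinarith

end Pool.Agent.H66.MC
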